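import Pool.Agent.K1H49.PL.Tct

/-!
# Project PL: Hausdorff theories
-/

namespace Pool.Agent.K1H49.PL

universe u

/-- Hausdorff: different types are separated by two definable sets which cover everything -/
def Haus {M : Type u} (Y : Sys M) : Prop := ∀ {α : Type} [Finite α] (u v : α → M),
  (∃ S, Y.D S ∧ ¬ (u ∈ S ↔ v ∈ S)) → ∃ S1 S2 : Set (α → M), Y.D S1 ∧ Y.D S2 ∧
    (∀ w, w ∈ S1 ∨ w ∈ S2) ∧ u ∉ S1 ∧ v ∉ S2

/-- regularity -/
theorem reg {M : Type u} (Y : Sys M) (hH : Haus Y) {α : Type} [Finite α] (S : Set (α → M))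
    (hS : Y.D S) (v : α → M) (hv : v ∉ S) : ∃ S1 S2 : Set (α → M), Y.D S1 ∧ Y.D S2 ∧
      (∀ w, w ∈ S1 ∨ w ∈ S2) ∧ v ∉ S1 ∧ ∀ w, w ∈ S2 → w ∉ S := by
  classical
  by_cases hne : ∃ u0, u0 ∈ S
  swap
  · refine ⟨S, Set.univ, hS, Y.univ, by simp, hv, fun w _ hw => hne ⟨w, hw⟩⟩
  obtain ⟨u0, hu0⟩ := hne
  let P : Set (α → M) → Prop := fun χ => Y.D χ ∧ ∃ θ, Y.D θ ∧ (∀ w, w ∈ θ ∨ w ∈ χ) ∧ v ∉ θ
  have hex : ∀ u ∈ S, ∃ χ, P χ ∧ u ∉ χ := by
    intro u hu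
    obtain ⟨S1, S2, h1, h2, h3, h4, h5⟩ := hH v u ⟨S, hS, by tauto⟩
    exact ⟨S2, ⟨h2, S1, h1, h3, h4⟩, h5⟩
  obtain ⟨χ0, hχ0, _⟩ := hex u0 hu0
  have hPi : ∀ Δ : Finset (Set (α → M)), (∀ T ∈ Δ, T = S ∨ P T) → ∃ χ, P χ ∧
      ∀ w, w ∈ χ → ∀ T ∈ Δ, T = S ∨ w ∈ T := by
    intro Δ
    induction Δ using Finset.induction_on with
    | empty =>
      intro _
      exact ⟨χ0, hχ0, by simp⟩
    | insert T Δ hT ih =>
      intro h
      obtain ⟨χ, ⟨hD, θ, hθ, hcov, hvθ⟩, hχ⟩ := ih fun T' hT' => h T' (by simp [hT'])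
      rcases h T (by simp) with hT1 | ⟨hT1, θ', hθ', hcov', hvθ'⟩
      · refine ⟨χ, ⟨hD, θ, hθ, hcov, hvθ⟩, fun w hw T' hT' => ?_⟩
        rcases Finset.mem_insert.1 hT' with rfl | hT'
        · exact Or.inl hT1
        · exact hχ w hw T' hT'
      · refine ⟨χ ∩ T, ⟨Y.inter hD hT1, θ ∪ θ', Y.union hθ hθ', ?_, ?_⟩, ?_⟩
        · intro w
          rcases hcov w with h1 | h1
          · exact Or.inl (Or.inl h1)
          · rcases hcov' w with h2 | h2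
            · exact Or.inl (Or.inr h2)
            · exact Or.inr ⟨h1, h2⟩
        · rintro (h1 | h1)
          · exact hvθ h1
          · exact hvθ' h1
        · intro w hw T' hT'
          rcases Finset.mem_insert.1 hT' with rfl | hT'
          · exact Or.inr hw.2
          · exact hχ w hw.1 T' hT'
  by_contra hcon
  push Not at hcon
  obtain ⟨u, hu⟩ := Y.sat {T : Set (α → M) | T = S ∨ P T} (by
      rintro T (rfl | hT)
      · exact hS
      · exact hT.1) (by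
      intro Δ hΔ
      obtain ⟨χ, ⟨hD, θ, hθ, hcov, hvθ⟩, hχ⟩ := hPi Δ hΔ
      obtain ⟨w, hw, hw'⟩ := hcon θ χ hθ hD hcov hvθ
      refine ⟨w, fun T hT => ?_⟩
      rcases hχ w hw T hT with rfl | h
      · exact hw'
      · exact h)
  obtain ⟨χ, hχ, huχ⟩ := hex u (hu S (Or.inl rfl))
  exact huχ (hu χ (Or.inr hχ))

/-- compactness -/
theorem cptH {M : Type u} (Y : Sys M) {ι : Type} [Finite ι] (c : Nd → ι → M) (m : ℕ)
    (S : Set ((LN m × ι) → M)) (hS : Y.D S)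
    (h : ∀ N : ℕ, ∃ n, N ≤ n ∧ ∃ e, Emb e ∧ ∀ e', Emb e' →
      (∀ η : Nd, η.length ≤ m → (e' η).length ≤ n) →
      (fun p : LN m × ι => c (e (e' p.1.1)) p.2) ∈ S) :
    ∃ c', (∀ m S, Y.D S → Hm c m S → Hm c' m S) ∧ Hm c' m S := by
  classical
  let Γ : Set (Set (Nd × ι → M)) := {T | (∃ m' S', Y.D S' ∧ Hm c m' S' ∧ ∃ e', Emb e' ∧
      T = {v | (fun p : LN m' × ι => v (e' p.1.1, p.2)) ∈ S'}) ∨
    (∃ e', Emb e' ∧ T = {v | (fun p : LN m × ι => v (e' p.1.1, p.2)) ∈ S})}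
  have key : ∀ T ∈ Γ, ∃ N : ℕ, ∀ n, N ≤ n → ∀ e, Emb e → (∀ e', Emb e' →
      (∀ η : Nd, η.length ≤ m → (e' η).length ≤ n) →
      (fun p : LN m × ι => c (e (e' p.1.1)) p.2) ∈ S) →
      (fun p : Nd × ι => c (e p.1) p.2) ∈ T := by
    rintro T (⟨m', S', hS', hH, e', he', rfl⟩ | ⟨e', he', rfl⟩)
    · refine ⟨0, fun n _ e he _ => ?_⟩
      exact hH (e ∘ e') (fun π d => (he (e' π) d).trans (Tct.emb_mono he (he' π d)))
    · have hfin : Finite (LN m) := by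
        have := List.finite_length_le Bool m
        exact this
      have := Fintype.ofFinite (LN m)
      refine ⟨Finset.univ.sup fun η : LN m => (e' η.1).length, fun n hn e he h => ?_⟩
      refine h e' he' fun η hη => ?_
      exact (Finset.le_sup (f := fun η : LN m => (e' η.1).length)
        (Finset.mem_univ (⟨η, hη⟩ : LN m))).trans hn
  obtain ⟨v, hv⟩ := Y.sat Γ (by
      rintro T (⟨m', S', hS', hH, e', he', rfl⟩ | ⟨e', he', rfl⟩)
      · exact Y.pull (fun p : LN m' × ι => (e' p.1.1, p.2)) hS'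
      · exact Y.pull (fun p : LN m × ι => (e' p.1.1, p.2)) hS) (by
      intro Δ hΔ
      choose! N hN using key
      obtain ⟨n, hn, e, he, h'⟩ := h (Δ.sup N)
      refine ⟨fun p => c (e p.1) p.2, fun T hT => hN T (hΔ T hT) n ?_ e he h'⟩
      exact (Finset.le_sup hT).trans hn)
  refine ⟨fun η i => v (η, i), fun m' S' hS' hH e' he' => ?_, fun e' he' => ?_⟩
  · exact hv _ (Or.inl ⟨m', S', hS', hH, e', he', rfl⟩)
  · exact hv _ (Or.inr ⟨e', he', rfl⟩)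

/-- dichotomy for maximal trees -/
theorem dich (hR : S_RAM) {M : Type u} (Y : Sys M) {ι : Type} [Finite ι] (c : Nd → ι → M)
    (hc : MaxT Y c) (m : ℕ) (S1 S2 : Set ((LN m × ι) → M)) (h1 : Y.D S1) (h2 : Y.D S2)
    (hcov : ∀ w, w ∈ S1 ∨ w ∈ S2) : Hm c m S1 ∨ Hm c m S2 := by
  have hR' : ∀ n : ℕ, ∃ e, Emb e ∧
      ((∀ e', Emb e' → (∀ η : Nd, η.length ≤ m → (e' η).length ≤ n) →
        (fun p : LN m × ι => c (e (e' p.1.1)) p.2) ∈ S1) ∨
      (∀ e', Emb e' → (∀ η : Nd, η.length ≤ m → (e' η).length ≤ n) →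
        (fun p : LN m × ι => c (e (e' p.1.1)) p.2) ∈ S2)) := by
    intro n
    obtain ⟨e, he, h⟩ := hR m n (fun g => (fun p : LN m × ι => c (g p.1) p.2) ∈ S1)
    refine ⟨e, he, h.imp (fun h e' he' hn => h e' he' hn) (fun h e' he' hn => ?_)⟩
    exact (hcov _).resolve_left (h e' he' hn)
  by_cases hA : ∀ N : ℕ, ∃ n, N ≤ n ∧ ∃ e, Emb e ∧ ∀ e', Emb e' →
      (∀ η : Nd, η.length ≤ m → (e' η).length ≤ n) →
      (fun p : LN m × ι => c (e (e' p.1.1)) p.2) ∈ S1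
  · obtain ⟨c', hc', hS⟩ := cptH Y c m S1 h1 hA
    exact Or.inl (hc c' hc' m S1 h1 hS)
  · push Not at hA
    obtain ⟨N, hN⟩ := hA
    obtain ⟨c', hc', hS⟩ := cptH Y c m S2 h2 (by
      intro N'
      obtain ⟨e, he, h⟩ := hR' (max N N')
      refine ⟨max N N', le_max_right _ _, e, he, ?_⟩
      rcases h with h | h
      · obtain ⟨e', he', h3, h4⟩ := hN (max N N') (le_max_left _ _) e he
        exact absurd (h e' he' h3) h4
      · exact h)
    exact Or.inr (hc c' hc' m S2 h2 hS)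

/-- maximal trees are indiscernible -/
theorem ind_of_max (hR : S_RAM) {M : Type u} (Y : Sys M) (hH : Haus Y) {ι : Type} [Finite ι]
    (c : Nd → ι → M) (hc : MaxT Y c) : Ind Y c := by
  intro m S hS e e' he he' h
  by_contra hcon
  have hfin : Finite (LN m) := List.finite_length_le Bool m
  obtain ⟨S1, S2, h1, h2, hcov, h3, h4⟩ := reg Y hH S hS _ hcon
  rcases dich hR Y c hc m S1 S2 h1 h2 hcov with h5 | h5
  · exact h3 (h5 e' he')
  · exact h4 _ (h5 e he) h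

/-- modelling property of Hausdorff theories -/
theorem mp_of_haus (hX : S_MAX.{u}) (hR : S_RAM) {M : Type u} (Y : Sys M) (hH : Haus Y) :
    MP Y := by
  intro ι _ c
  obtain ⟨c', h1, h2⟩ := hX Y c
  exact ⟨c', h1, ind_of_max hR Y hH c' h2⟩

end Pool.Agent.K1H49.PL
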