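import Pool.Agent.K1H49.PL.Asm
import Pool.Agent.K1H49.PL.Haus
import Pool.Agent.K1H10.PL.ULT
import Pool.Agent.K1H37.PL.Ram
import Pool.Agent.K1H96.PL.Ext
import Pool.Agent.K1H16.PL.JT
import Pool.Agent.K1H6.PL.Comb
import Pool.Agent.K1H72.PosL.MAX
import Pool.Agent.K1H72.PosL.ONE
import Pool.Agent.K1H36.PL.SUBB
import Pool.Agent.K1H26.PL.SPLB
import Pool.Agent.K1H38.PL.RICHB
import Pool.Agent.K1H21.PL.RICHA
import Pool.Agent.K1H97.PL.Base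
import Pool.Agent.K1H92.PL.Step
import Pool.Agent.K1H13.PL.DEF
import Pool.Agent.K1H29.PL.Cpt
import Pool.Agent.K1H59.PL.Iter
import Pool.Agent.K1H39.PL.TREE
import Pool.Agent.K1H1.PL.PFS

/-!
# Project PL: all the pieces together
-/

namespace Pool.Agent.K1H49.PL

universe u

theorem a_RAM : S_RAM := Pool.Agent.K1H37.PL.t_RAM Pool.Agent.K1H10.PL.t_ULT

theorem a_RICHA : S_RICHA.{u} :=
  Pool.Agent.K1H21.PL.t_RICHA Pool.Agent.K1H96.PL.t_EXT Pool.Agent.K1H16.PL.t_JT1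
    Pool.Agent.K1H16.PL.t_JT2

theorem a_RICHB : S_RICHB.{u} :=
  Pool.Agent.K1H38.PL.t_RICHB Pool.Agent.K1H72.PosL.t_MAX
    (Pool.Agent.K1H36.PL.t_SUBB Pool.Agent.K1H96.PL.t_EXT)
    (Pool.Agent.K1H26.PL.t_SPLB a_RAM Pool.Agent.K1H16.PL.t_JT1 Pool.Agent.K1H16.PL.t_JT2)

/-- SOP1 gives SOP2 when SOP1 systems have rich trees -/
theorem a_core {M : Type u} (Y : Sys M) (hY : HT Y) (X V Z : Type) [Finite X] [Finite V]
    [Finite Z] (β : (X → M) → (V → M) → Prop) (α : (Z → M) → (V → M) → Prop)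
    (γ : (X → M) → (Z → M) → Prop) (hβ : Y.D2 β) (hα : Y.D2 α) (hγ : Y.D2 γ)
    (hin : ∀ x v z, ¬ (β x v ∧ α z v ∧ γ x z)) (h : S1 β α γ) :
    SOP2 (fun (x : X → M) (b : V ⊕ Z → M) => β x (b ∘ Sum.inl) ∧ γ x (b ∘ Sum.inr))
      (fun b b' => α (b' ∘ Sum.inr) (b ∘ Sum.inl)) :=
  core Pool.Agent.K1H13.PL.t_DEF Pool.Agent.K1H6.PL.t_COMB Pool.Agent.K1H97.PL.t_BASE
    Pool.Agent.K1H97.PL.t_T0 Pool.Agent.K1H92.PL.t_STEP Pool.Agent.K1H72.PosL.t_ONE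
    Pool.Agent.K1H29.PL.t_CPT Pool.Agent.K1H59.PL.t_ITER Pool.Agent.K1H39.PL.t_TREE Y hY X V Z
    β α γ hβ hα hγ hin h

/-- modelling property and no SOP2: SOP1 systems have rich trees -/
theorem a_mp {M : Type u} (Y : Sys M) (hN : NSOP2 Y) (hE : EC Y) (hM : MP Y) : HT Y :=
  ht_of_mp a_RICHA Y hN hE hM

/-- Hausdorff -/
theorem a_haus {M : Type u} (Y : Sys M) (hH : Haus Y) : MP Y :=
  mp_of_haus Pool.Agent.K1H72.PosL.t_MAX a_RAM Y hH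

/-- no weak SOP2: SOP1 systems have rich trees -/
theorem a_wk {M : Type u} (Y : Sys M) (hN : NW2 Y) : HT Y := a_RICHB Y hN

end Pool.Agent.K1H49.PL
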