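import Pool.Agent.K1H49.PL.Tct

/-!
# Project PL: assembly of the core
-/

namespace Pool.Agent.K1H49.PL

universe u

theorem finite_An (X Z : Type) [Finite X] [Finite Z] : ∀ n, Finite (An X Z n)
  | 0 => by unfold An; infer_instance
  | n + 1 => by
    have := finite_An X Z n
    unfold An
    infer_instance

section

variable {M : Type u} (Y : Sys M)

/-- pull back of a definable relation -/
theorem D2_pull {A B C : Type} {R : (A → M) → (B → M) → Prop} (h : Y.D2 R) (f : A → C)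
    (g : B → C) : Y.D {v : C → M | R (v ∘ f) (v ∘ g)} := by
  have := Y.pull (Sum.elim f g) h
  exact this

theorem D_eqs {C V : Type} [Finite V] (f g : V → C) : Y.D {v : C → M | v ∘ f = v ∘ g} := by
  classical
  have := Fintype.ofFinite V
  have h : ∀ s : Finset V, Y.D {v : C → M | ∀ i ∈ s, v (f i) = v (g i)} := by
    intro s
    induction s using Finset.induction_on with
    | empty =>
      convert Y.univ (α := C) using 1
      ext v; simp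
    | insert i s hi ih =>
      convert Y.inter (Y.eq (f i) (g i)) ih using 1
      ext v; simp
  convert h Finset.univ using 1
  ext v
  simp [funext_iff]

theorem D2_bp {X V : Type} {β : (X → M) → (V → M) → Prop} (h : Y.D2 β) : Y.D2 (bp β) := by
  have h1 := D2_pull Y h (Sum.inl ∘ Sum.inl : X → (X ⊕ (X ⊕ V)) ⊕ V) Sum.inr
  have h2 := D2_pull Y h (Sum.inl ∘ Sum.inr ∘ Sum.inl : X → (X ⊕ (X ⊕ V)) ⊕ V) Sum.inr
  exact Y.inter h1 h2

theorem D2_ap {Z V : Type} {α : (Z → M) → (V → M) → Prop} (h : Y.D2 α) : Y.D2 (ap α) := by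
  have h1 := D2_pull Y h (Sum.inl ∘ Sum.inl : Z → (Z ⊕ (Z ⊕ V)) ⊕ V) Sum.inr
  have h2 := D2_pull Y h (Sum.inl ∘ Sum.inr ∘ Sum.inl : Z → (Z ⊕ (Z ⊕ V)) ⊕ V) Sum.inr
  exact Y.inter h1 h2

theorem D2_gp {X V Z : Type} [Finite V] {β : (X → M) → (V → M) → Prop}
    {α : (Z → M) → (V → M) → Prop} {γ : (X → M) → (Z → M) → Prop} (hβ : Y.D2 β) (hα : Y.D2 α)
    (hγ : Y.D2 γ) : Y.D2 (gp β α γ) := by
  let C := (X ⊕ (X ⊕ V)) ⊕ (Z ⊕ (Z ⊕ V))
  have h1 := D2_pull Y hγ (Sum.inl ∘ Sum.inl : X → C) (Sum.inr ∘ Sum.inl : Z → C)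
  have h2 := D2_pull Y hγ (Sum.inl ∘ Sum.inl : X → C) (Sum.inr ∘ Sum.inr ∘ Sum.inl : Z → C)
  have h3 := D2_pull Y hγ (Sum.inl ∘ Sum.inr ∘ Sum.inl : X → C) (Sum.inr ∘ Sum.inl : Z → C)
  have h4 := D2_pull Y hβ (Sum.inl ∘ Sum.inr ∘ Sum.inl : X → C)
    (Sum.inl ∘ Sum.inr ∘ Sum.inr : V → C)
  have h5 := D2_pull Y hα (Sum.inr ∘ Sum.inr ∘ Sum.inl : Z → C)
    (Sum.inr ∘ Sum.inr ∘ Sum.inr : V → C)
  have h6 := D_eqs Y (Sum.inl ∘ Sum.inr ∘ Sum.inr : V → C) (Sum.inr ∘ Sum.inr ∘ Sum.inr : V → C)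
  exact Y.inter h1 (Y.inter h2 (Y.inter h3 (Y.inter h4 (Y.inter h5 h6))))

end

/-- the role systems of the induction -/
def RSn {M : Type u} (hD : S_DEF.{u}) (Y : Sys M) {X V Z : Type}
    {β : (X → M) → (V → M) → Prop} {α : (Z → M) → (V → M) → Prop}
    {γ : (X → M) → (Z → M) → Prop} (hβ : Y.D2 β) (hα : Y.D2 α) (hγ : Y.D2 γ) (n : ℕ) :
    RS Y Lab (An X Z n) (V ⊕ Z) where
  r0 := rho0 γ n
  r := rho β α γ n
  d0 := (hD Y β α γ hβ hα hγ n).1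
  d := (hD Y β α γ hβ hα hγ n).2

/-- doubling of an SOP1 system -/
theorem one_step (hD : S_DEF.{u}) (hC : S_COMB) (hB : S_BASE.{u}) (hT : S_T0.{u})
    (hS : S_STEP.{u}) (hO : S_ONE.{u}) (hK : S_CPT.{u}) {M : Type u} (Y : Sys M) (hY : HT Y)
    (X V Z : Type) [Finite X] [Finite V] [Finite Z]
    (β : (X → M) → (V → M) → Prop) (α : (Z → M) → (V → M) → Prop)
    (γ : (X → M) → (Z → M) → Prop) (hβ : Y.D2 β) (hα : Y.D2 α) (hγ : Y.D2 γ)
    (h : S1 β α γ) : S1 (bp β) (ap α) (gp β α γ) := by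
  obtain ⟨c, hc, hr⟩ := hY X V Z β α γ hβ hα hγ h
  refine hK Y _ _ _ (D2_bp Y hβ) (D2_ap Y hα) (D2_gp Y hβ hα hγ) ?_
  refine hO β α γ c hc fun n F hF e he => ?_
  have key := hC (fun n => AllG (RSn hD Y hβ hα hγ n) c) (fun n => ?_) ?_ ?_ ?_ n F hF
  · exact key e he
  · have := finite_An X Z n
    exact hr Lab (An X Z n) _
  · intro F hF e he
    exact hB β α γ c hc F hF e he
  · intro F h e he
    obtain ⟨w, hw, hw'⟩ := h e he
    exact ⟨w, hw, hT β α γ c F e w hw'⟩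
  · intro n E hE h0 h1 e he
    exact hS β α γ c hc n E hE e he (h0 e he) (h1 e he)

/-- SOP1 gives SOP2 when SOP1 systems have rich trees -/
theorem core (hD : S_DEF.{u}) (hC : S_COMB) (hB : S_BASE.{u}) (hT : S_T0.{u})
    (hS : S_STEP.{u}) (hO : S_ONE.{u}) (hK : S_CPT.{u}) (hI : S_ITER.{u}) (hR : S_TREE.{u})
    {M : Type u} (Y : Sys M) (hY : HT Y) (X V Z : Type) [Finite X] [Finite V] [Finite Z]
    (β : (X → M) → (V → M) → Prop) (α : (Z → M) → (V → M) → Prop)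
    (γ : (X → M) → (Z → M) → Prop) (hβ : Y.D2 β) (hα : Y.D2 α) (hγ : Y.D2 γ)
    (hin : ∀ x v z, ¬ (β x v ∧ α z v ∧ γ x z)) (h : S1 β α γ) :
    SOP2 (fun (x : X → M) (b : V ⊕ Z → M) => β x (b ∘ Sum.inl) ∧ γ x (b ∘ Sum.inr))
      (fun b b' => α (b' ∘ Sum.inr) (b ∘ Sum.inl)) := by
  refine hR Y X V Z β α γ hβ hα hγ hin (hI Y ?_ X V Z β α γ hβ hα hγ h)
  intro X V Z _ _ _ β α γ hβ hα hγ h
  exact one_step hD hC hB hT hS hO hK Y hY X V Z β α γ hβ hα hγ h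

/-- SOP2 gives weak SOP2 -/
theorem wk_of_sop2 {M : Type u} {A B : Type} {R : (A → M) → (B → M) → Prop}
    {P : (B → M) → (B → M) → Prop} (h : SOP2 R P) : Wk2 R := by
  obtain ⟨h1, b, h2, h3⟩ := h
  intro n
  exact ⟨b, fun σ _ => h2 σ, fun μ ν _ _ hi => h1 _ _ (h3 μ ν hi)⟩

/-- rich trees from the modelling property -/
theorem ht_of_mp (hA : S_RICHA.{u}) {M : Type u} (Y : Sys M) (hN : NSOP2 Y) (hE : EC Y)
    (hM : MP Y) : HT Y := by
  intro X V Z _ _ _ β α γ hβ hα hγ hS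
  obtain ⟨y, z, hT⟩ := hS
  obtain ⟨c', hc, hI⟩ := hM (fun η => Sum.elim (y η) (z η))
  exact ⟨c', Tct.tct Y β α γ hβ hα hγ y z hT c' hc, hA Y c' hN hE hI⟩

end Pool.Agent.K1H49.PL
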