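import Pool.Agent.K1H49.PL.Fml
import Pool.Agent.K1H49.PL.Haus

/-!
# Project PL: final definitions (positive theories, SOP1, SOP2)
-/

namespace Pool.Agent.K1H49.PL

universe u

/-- an h-inductive sentence `∀ x (lhs(x) → rhs(x))` -/
structure HInd (L : FirstOrder.Language.{0, 0}) where
  n : ℕ
  lhs : PF L (Fin n)
  rhs : PF L (Fin n)

/-- models of a positive theory -/
def IsMod {L : FirstOrder.Language.{0, 0}} (T : Set (HInd L)) (N : Type u) [L.Structure N] :
    Prop :=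
  ∀ s ∈ T, ∀ v : Fin s.n → N, s.lhs.Realize v → s.rhs.Realize v

/-- joint continuation property -/
def JCP {L : FirstOrder.Language.{0, 0}} (T : Set (HInd L)) : Prop :=
  ∀ (N N' : Type u) [L.Structure N] [L.Structure N'], IsMod T N → IsMod T N' →
    ∃ (K : Type u) (_ : L.Structure K), IsMod T K ∧ Nonempty (FirstOrder.Language.Hom L N K) ∧
      Nonempty (FirstOrder.Language.Hom L N' K)

/-- `ψ` is a negation of `φ` -/
def IsNeg {L : FirstOrder.Language.{0, 0}} (T : Set (HInd L)) {α : Type} (φ ψ : PF L α) : Prop :=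
  ∀ (N : Type u) [L.Structure N], IsMod T N → ¬ ∃ v : α → N, φ.Realize v ∧ ψ.Realize v

/-- `ψ(y₁, y₂)` is a negation of `∃ x (φ(x, y₁) ∧ φ(x, y₂))` -/
def IsNeg2 {L : FirstOrder.Language.{0, 0}} (T : Set (HInd L)) {A B : Type} (φ : PF L (A ⊕ B))
    (ψ : PF L (B ⊕ B)) : Prop :=
  ∀ (N : Type u) [L.Structure N], IsMod T N → ¬ ∃ y₁ y₂ : B → N, ψ.Realize (Sum.elim y₁ y₂) ∧
    ∃ x : A → N, φ.Realize (Sum.elim x y₁) ∧ φ.Realize (Sum.elim x y₂)

/-- existentially closed saturated models of `T` (homogeneity is not needed) -/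
structure Monster {L : FirstOrder.Language.{0, 0}} (T : Set (HInd L)) (M : Type u)
    [L.Structure M] : Prop where
  mod : IsMod T M
  ec : ∀ {α : Type} [Finite α] (φ : PF L α) (v : α → M), ¬ φ.Realize v →
    ∃ ψ : PF L α, IsNeg.{u} T φ ψ ∧ ψ.Realize v
  sat : PSat L M

/-- the first `n` values of `σ` -/
def br (σ : ℕ → Bool) (n : ℕ) : List Bool := List.ofFn fun i : Fin n => σ i

/-- condition (1): the set of the `φ(x, a_{σ|n})` is consistent for every infinite `σ` -/
def Paths {L : FirstOrder.Language.{0, 0}} {M : Type u} [L.Structure M] {A B : Type}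
    (φ : PF L (A ⊕ B)) (a : List Bool → B → M) : Prop :=
  ∀ (σ : ℕ → Bool) (n : ℕ), ∃ x : A → M, ∀ k ≤ n, φ.Realize (Sum.elim x (a (br σ k)))

def HasSOP1 {L : FirstOrder.Language.{0, 0}} (T : Set (HInd L)) (M : Type u) [L.Structure M] :
    Prop :=
  ∃ (A B : Type) (_ : Finite A) (_ : Finite B) (φ : PF L (A ⊕ B)) (ψ : PF L (B ⊕ B))
    (a : List Bool → B → M), IsNeg2.{u} T φ ψ ∧ Paths φ a ∧
    ∀ μ η : List Bool, (μ ++ [false]) <+: η → ψ.Realize (Sum.elim (a (μ ++ [true])) (a η))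

def HasSOP2 {L : FirstOrder.Language.{0, 0}} (T : Set (HInd L)) (M : Type u) [L.Structure M] :
    Prop :=
  ∃ (A B : Type) (_ : Finite A) (_ : Finite B) (φ : PF L (A ⊕ B)) (ψ : PF L (B ⊕ B))
    (a : List Bool → B → M), IsNeg2.{u} T φ ψ ∧ Paths φ a ∧
    ∀ μ η : List Bool, ¬ μ <+: η → ¬ η <+: μ → ψ.Realize (Sum.elim (a μ) (a η))

/-- SOP2 in every finite height, with a negation that may depend on the height -/
def HasWeakSOP2 {L : FirstOrder.Language.{0, 0}} (T : Set (HInd L)) (M : Type u)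
    [L.Structure M] : Prop :=
  ∃ (A B : Type) (_ : Finite A) (_ : Finite B) (φ : PF L (A ⊕ B)), ∀ n : ℕ,
    ∃ (ψ : PF L (B ⊕ B)) (a : List Bool → B → M), IsNeg2.{u} T φ ψ ∧
    (∀ σ : List Bool, σ.length ≤ n → ∃ x : A → M, ∀ τ, τ <+: σ →
      φ.Realize (Sum.elim x (a τ))) ∧
    ∀ μ η : List Bool, μ.length ≤ n → η.length ≤ n → ¬ μ <+: η → ¬ η <+: μ →
      ψ.Realize (Sum.elim (a μ) (a η))

/-- Hausdorff: different types of finite tuples are separated by two positive formulas whose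
disjunction is valid -/
def IsHaus (L : FirstOrder.Language.{0, 0}) (M : Type u) [L.Structure M] : Prop :=
  ∀ {α : Type} [Finite α] (v w : α → M), (∃ φ : PF L α, ¬ (φ.Realize v ↔ φ.Realize w)) →
    ∃ θ χ : PF L α, (∀ x : α → M, θ.Realize x ∨ χ.Realize x) ∧ ¬ θ.Realize v ∧ ¬ χ.Realize w

/-- modelling property for trees indexed by `2^{<ω}`, with respect to the maps of the tree which
preserve left and right cones -/
def TreeModel (L : FirstOrder.Language.{0, 0}) (M : Type u) [L.Structure M] : Prop :=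
  ∀ {B : Type} [Finite B] (c : List Bool → B → M), ∃ c' : List Bool → B → M,
    (∀ (m : ℕ) (φ : PF L (LN m × B)), (∀ e, Emb e → φ.Realize fun p => c (e p.1.1) p.2) →
      ∀ e, Emb e → φ.Realize fun p => c' (e p.1.1) p.2) ∧
    ∀ (m : ℕ) (φ : PF L (LN m × B)) (e e' : List Bool → List Bool), Emb e → Emb e' →
      φ.Realize (fun p => c' (e p.1.1) p.2) → φ.Realize fun p => c' (e' p.1.1) p.2

/-! ### pieces -/

/-- homomorphisms and closures: with JCP, satisfiable formulas are satisfiable in the monster -/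
def S_UNI : Prop := ∀ {L : FirstOrder.Language.{0, 0}} (T : Set (HInd L)) (M : Type u)
  [L.Structure M], JCP.{u} T → Monster T M → ∀ {α : Type} [Finite α] (φ : PF L α),
  (∀ v : α → M, ¬ φ.Realize v) → ∀ (N : Type u) [L.Structure N], IsMod T N →
    ∀ v : α → N, ¬ φ.Realize v

/-- SOP1 of the theory gives an SOP1 system -/
def S_TR1 : Prop := ∀ {L : FirstOrder.Language.{0, 0}} (T : Set (HInd L)) (M : Type u)
  [L.Structure M] (Y : Sys M), (∀ {α : Type} (S : Set (α → M)), Y.D S ↔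
    ∃ φ : PF L α, S = {v | φ.Realize v}) → IsMod T M → HasSOP1 T M →
  ∃ (X V : Type) (_ : Finite X) (_ : Finite V) (β : (X → M) → (V → M) → Prop)
    (α : (V → M) → (V → M) → Prop), Y.D2 β ∧ Y.D2 α ∧ (∀ x v z, ¬ (β x v ∧ α z v ∧ β x z)) ∧
    S1 β α β

/-- SOP2 in the monster gives SOP2 of the theory -/
def S_TR2 : Prop := ∀ {L : FirstOrder.Language.{0, 0}} (T : Set (HInd L)) (M : Type u)
  [L.Structure M] (Y : Sys M), (∀ {α : Type} (S : Set (α → M)), Y.D S ↔
    ∃ φ : PF L α, S = {v | φ.Realize v}) → JCP.{u} T → Monster T M →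
  ∀ (A B : Type) [Finite A] [Finite B] (R : (A → M) → (B → M) → Prop)
    (P : (B → M) → (B → M) → Prop), Y.D2 R → Y.D2 P → SOP2 R P → HasSOP2 T M

/-- weak SOP2 in the monster gives weak SOP2 of the theory -/
def S_TR3 : Prop := ∀ {L : FirstOrder.Language.{0, 0}} (T : Set (HInd L)) (M : Type u)
  [L.Structure M] (Y : Sys M), (∀ {α : Type} (S : Set (α → M)), Y.D S ↔
    ∃ φ : PF L α, S = {v | φ.Realize v}) → Monster T M →
  ∀ (A B : Type) [Finite A] [Finite B] (R : (A → M) → (B → M) → Prop),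
    Y.D2 R → Wk2 R → HasWeakSOP2 T M

end Pool.Agent.K1H49.PL
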