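import Pool.Agent.K1H49.PL.All
import Pool.Agent.K1H49.PL.Def

/-!
# Project PL: final assembly, from the translation pieces
-/

namespace Pool.Agent.K1H49.PL

universe u

section

variable {L : FirstOrder.Language.{0, 0}} {M : Type u} [L.Structure M] (Y : Sys M)
  (hY : ∀ {α : Type} (S : Set (α → M)), Y.D S ↔ ∃ φ : PF L α, S = {v | φ.Realize v})

include hY

theorem Y_D {α : Type} (φ : PF L α) : Y.D {v : α → M | φ.Realize v} := (hY _).2 ⟨φ, rfl⟩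

theorem haus_of {h : IsHaus L M} : Haus Y := by
  intro α _ v w hvw
  obtain ⟨S, hS, hne⟩ := hvw
  obtain ⟨φ, rfl⟩ := (hY S).1 hS
  obtain ⟨θ, χ, h1, h2, h3⟩ := h v w ⟨φ, hne⟩
  exact ⟨_, _, Y_D Y hY θ, Y_D Y hY χ, h1, h2, h3⟩

theorem ec_of {T : Set (HInd L)} (h : Monster T M) : EC Y := by
  intro α _ S hS v hv
  obtain ⟨φ, rfl⟩ := (hY S).1 hS
  obtain ⟨ψ, h1, h2⟩ := h.ec φ v hv
  exact ⟨_, Y_D Y hY ψ, h2, fun u hu hu' => h1 M h.mod ⟨u, hu, hu'⟩⟩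

theorem mp_of (h : TreeModel L M) : MP Y := by
  intro ι _ c
  obtain ⟨c', h1, h2⟩ := h c
  refine ⟨c', fun m S hS => ?_, fun m S hS e e' he he' hc => ?_⟩
  · obtain ⟨φ, rfl⟩ := (hY S).1 hS
    exact h1 m φ
  · obtain ⟨φ, rfl⟩ := (hY S).1 hS
    exact h2 m φ e e' he he' hc

end

/-- Hausdorff structures have the modelling property -/
theorem treeModel_of_haus (hP : S_PFS.{u}) {L : FirstOrder.Language.{0, 0}} {M : Type u}
    [L.Structure M] (hs : PSat L M) (h : IsHaus L M) : TreeModel L M := by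
  obtain ⟨Y, hY⟩ := hP L M hs
  intro B _ c
  have hM := a_haus Y (haus_of Y hY (h := h)) (ι := B)
  obtain ⟨c', h1, h2⟩ := hM c
  exact ⟨c', fun m φ => h1 m _ (Y_D Y hY φ), fun m φ e e' he he' => h2 m _ (Y_D Y hY φ) e e' he he'⟩

/-- modelling property: SOP1 gives SOP2 -/
theorem sop2_of_sop1 (hP : S_PFS.{u}) (h1 : S_TR1.{u}) (h2 : S_TR2.{u})
    {L : FirstOrder.Language.{0, 0}} (T : Set (HInd L)) (M : Type u)
    [L.Structure M] (hJ : JCP.{u} T) (hM : Monster T M) (hT : TreeModel L M)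
    (h : HasSOP1 T M) : HasSOP2 T M := by
  obtain ⟨Y, hY⟩ := hP L M hM.sat
  by_contra hno
  have hN : NSOP2 Y := by
    intro A B _ _ R P hR hPd hRP
    exact hno (h2 T M Y hY hJ hM A B R P hR hPd hRP)
  have hHT := a_mp Y hN (ec_of Y hY hM) (mp_of Y hY hT)
  obtain ⟨X, V, _, _, β, α, hβ, hα, hin, hS⟩ := h1 T M Y hY hM.mod h
  have h3 := a_core Y hHT X V V β α β hβ hα hβ hin hS
  refine hN X (V ⊕ V) _ _ ?_ ?_ h3
  · exact Y.inter (D2_pull Y hβ (Sum.inl : X → X ⊕ (V ⊕ V)) (Sum.inr ∘ Sum.inl))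
      (D2_pull Y hβ (Sum.inl : X → X ⊕ (V ⊕ V)) (Sum.inr ∘ Sum.inr))
  · exact D2_pull Y hα (Sum.inr ∘ Sum.inr : V → (V ⊕ V) ⊕ (V ⊕ V)) (Sum.inl ∘ Sum.inl)

/-- SOP1 gives weak SOP2 -/
theorem weak_of_sop1 (hP : S_PFS.{u}) (h1 : S_TR1.{u}) (h3 : S_TR3.{u})
    {L : FirstOrder.Language.{0, 0}} (T : Set (HInd L)) (M : Type u)
    [L.Structure M] (hM : Monster T M) (h : HasSOP1 T M) : HasWeakSOP2 T M := by
  obtain ⟨Y, hY⟩ := hP L M hM.sat
  by_contra hno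
  have hN : NW2 Y := by
    intro A B _ _ R hR hW
    exact hno (h3 T M Y hY hM A B R hR hW)
  obtain ⟨X, V, _, _, β, α, hβ, hα, hin, hS⟩ := h1 T M Y hY hM.mod h
  have h3 := a_core Y (a_wk Y hN) X V V β α β hβ hα hβ hin hS
  refine hN X (V ⊕ V) _ ?_ (wk_of_sop2 h3)
  exact Y.inter (D2_pull Y hβ (Sum.inl : X → X ⊕ (V ⊕ V)) (Sum.inr ∘ Sum.inl))
      (D2_pull Y hβ (Sum.inl : X → X ⊕ (V ⊕ V)) (Sum.inr ∘ Sum.inr))

/-- SOP2 gives SOP1 (known, for completeness) -/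
theorem sop1_of_sop2 {L : FirstOrder.Language.{0, 0}} (T : Set (HInd L)) (M : Type u)
    [L.Structure M] (h : HasSOP2 T M) : HasSOP1 T M := by
  obtain ⟨A, B, hA, hB, φ, ψ, a, h1, h2, h3⟩ := h
  refine ⟨A, B, hA, hB, φ, ψ, a, h1, h2, fun μ η hμ => h3 _ _ ?_ ?_⟩
  · intro h4
    have h5 := List.prefix_of_prefix_length_le h4 hμ (by simp)
    simp at h5
  · intro h4
    have h5 := hμ.trans h4
    simp at h5

end Pool.Agent.K1H49.PL
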