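import Pool.Agent.K1H49.PL.Gen
import Pool.Agent.K1H49.PL.Fin

/-!
# Project PL, general case: assembly
-/

namespace Pool.Agent.K1H49.PL

universe u

/-- monster models: existentially closed models of `T`, saturated over all small parameter sets
(homogeneity is not needed) -/
structure BigMonster {L : FirstOrder.Language.{0, 0}} (T : Set (HInd L)) (M : Type u)
    [L.Structure M] : Prop where
  mod : IsMod T M
  ec : ∀ {α : Type} [Finite α] (φ : PF L α) (v : α → M), ¬ φ.Realize v →
    ∃ ψ : PF L α, IsNeg.{u} T φ ψ ∧ ψ.Realize v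
  sat : PSatP L M

theorem idx_of (h1 : S_BTI) (h2 : S_COL) (h3 : S_LAM) : S_IDX := by
  intro C
  obtain ⟨Λ, _, hw, hn, hm, hb⟩ := h3 C
  exact ⟨TI Λ, tlt Λ, h1 Λ, fun f => h2 C Λ hb f⟩

/-- index types -/
def Kt : List ℕ → Type
  | [] => Empty
  | _ :: l => Option (Kt l)

/-- degrees -/
def dgl : (l : List ℕ) → Kt l → ℕ
  | [] => fun k : Empty => k.elim
  | a :: l => dgo a (dgl l)

theorem finite_Kt : ∀ l, Finite (Kt l)
  | [] => by unfold Kt; infer_instance
  | _ :: l => by
    have := finite_Kt l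
    unfold Kt
    infer_instance

theorem ph_all (hS : S_STP.{u}) (hB : S_BAS.{u}) {M : Type u} (Y : Sys M) (h1 : SatP Y)
    (h2 : ECg Y) (h3 : SmallD Y) (ι : Type) [Finite ι] : ∀ (N : ℕ) (l : List ℕ),
    (l.map fun a => 3 ^ (a + 1)).sum ≤ N → PH Y ι (Kt l) (dgl l) := by
  intro N
  induction N with
  | zero =>
    intro l hl
    cases l with
    | nil =>
      intro X x t
      refine ⟨t, fun n S _ h => h, fun S _ E E' _ _ h => ?_⟩
      have : tpl x t E = tpl x t E' := by
        funext p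
        rcases p with p | ⟨⟨k, _⟩, _⟩
        · rfl
        · exact Empty.elim k
      rw [← this]
      exact h
    | cons a l =>
      simp at hl
  | succ N ih =>
    intro l hl
    cases l with
    | nil => exact ih [] (by simp)
    | cons a l =>
      have := finite_Kt l
      cases a with
      | zero =>
        have h4 := ih l (by simp at hl; omega)
        exact hB Y h1 h2 h3 h4
      | succ m =>
        have h4 := ih (m :: m :: l) (by
          simp only [List.map_cons, List.sum_cons] at hl ⊢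
          have h5 : 3 ^ (m + 1 + 1) = 3 * 3 ^ (m + 1) := by ring
          have h6 : 0 < 3 ^ (m + 1) := by positivity
          omega)
        exact hS Y h1 h2 h3 h4

theorem mp_all (hS : S_STP.{u}) (hB : S_BAS.{u}) (hM : S_MPG.{u}) {M : Type u} (Y : Sys M)
    (h1 : SatP Y) (h2 : ECg Y) (h3 : SmallD Y) : MP Y := by
  refine hM Y h2 fun ι _ m => ?_
  exact ph_all hS hB Y h1 h2 h3 ι _ [m] le_rfl

/-- monster models have the modelling property -/
theorem treeModel_of_big (hP : S_PFS.{u}) (hS : S_STP.{u}) (hB : S_BAS.{u}) (hM : S_MPG.{u})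
    (hG : S_PFG.{u}) (hE : S_ECG.{u}) {L : FirstOrder.Language.{0, 0}} {T : Set (HInd L)}
    {M : Type u} [L.Structure M] (hs : PSatP L M) (h : Monster T M) : TreeModel L M := by
  obtain ⟨Y, hY⟩ := hP L M h.sat
  obtain ⟨h1, h2⟩ := (hG L M hs).2 Y hY
  intro B _ c
  have hMP := mp_all hS hB hM Y h1 (hE Y hY h) h2 (ι := B)
  obtain ⟨c', h1, h2⟩ := hMP c
  exact ⟨c', fun m φ => h1 m _ (Y_D Y hY φ), fun m φ e e' he he' => h2 m _ (Y_D Y hY φ) e e' he he'⟩

/-- the full theorem -/
theorem full (hP : S_PFS.{u}) (hS : S_STP.{u}) (hB : S_BAS.{u}) (hM : S_MPG.{u})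
    (hG : S_PFG.{u}) (hE : S_ECG.{u}) (h1 : S_TR1.{u}) (h2 : S_TR2.{u})
    {L : FirstOrder.Language.{0, 0}} (T : Set (HInd L)) (M : Type u)
    [L.Structure M] (hJ : JCP.{u} T) (h : BigMonster T M) : HasSOP1 T M ↔ HasSOP2 T M := by
  have hMo : Monster T M := ⟨h.mod, h.ec, (hG L M h.sat).1⟩
  exact ⟨sop2_of_sop1 hP h1 h2 T M hJ hMo (treeModel_of_big hP hS hB hM hG hE h.sat hMo),
    sop1_of_sop2 T M⟩

end Pool.Agent.K1H49.PL
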