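import Pool.Agent.K1H49.PL.Big
import Pool.Agent.K1H37.PL.Uni
import Pool.Agent.K1H7.PL.Tr
import Pool.Agent.K1H79.PL.Bti
import Pool.Agent.K1H4.PL.Col
import Pool.Agent.K1H20.PLG.Lam
import Pool.Agent.K1H64.PLG.Len
import Pool.Agent.K1H99.PLG.CHN
import Pool.Agent.K1H60.PLG.STP
import Pool.Agent.K1H39.PLG.MPG
import Pool.Agent.K1H10.PLG.PFG
import Pool.Agent.K1H87.PLG.SML
import Pool.Agent.K1H33.PLG.ECG

/-!
# Project PL, general case: the pieces together, from EXN and BAS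
-/

namespace Pool.Agent.K1H49.PL

universe u

theorem g_IDX : S_IDX :=
  idx_of Pool.Agent.K1H79.PL.Bti.bti Pool.Agent.K1H4.PL.t_COL Pool.Agent.K1H20.PLG.t_LAM

/-- SOP1 and SOP2 are equivalent for positive theories with JCP, from the last two pieces -/
theorem full_from (hE : S_EXN.{u}) (hB : S_IDX → S_LEN.{u} → S_BAS.{u})
    {L : FirstOrder.Language.{0, 0}} (T : Set (HInd L)) (M : Type u)
    [L.Structure M] (hJ : JCP.{u} T) (h : BigMonster T M) : HasSOP1 T M ↔ HasSOP2 T M :=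
  full Pool.Agent.K1H1.PL.t_PFS
    (Pool.Agent.K1H60.PLG.t_STP g_IDX Pool.Agent.K1H64.PLG.t_LEN Pool.Agent.K1H99.PLG.t_CHN hE)
    (hB g_IDX Pool.Agent.K1H64.PLG.t_LEN) Pool.Agent.K1H39.PLG.t_MPG
    (Pool.Agent.K1H10.PLG.t_PFG Pool.Agent.K1H87.PLG.t_SML) Pool.Agent.K1H33.PLG.t_ECG
    Pool.Agent.K1H7.PL.t_TR1 (Pool.Agent.K1H7.PL.t_TR2 Pool.Agent.K1H37.PL.t_UNI) T M hJ h

end Pool.Agent.K1H49.PL
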