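import Pool.Agent.K1H49.PL.Big2
import Pool.Agent.K1H28.PLG.Exn
import Pool.Agent.K1H16.PLG.BAS

/-!
# Project PL, general case: the theorem
-/

namespace Pool.Agent.K1H49.PL

universe u

/-- SOP1 and SOP2 are equivalent for positive theories with JCP -/
theorem full_result {L : FirstOrder.Language.{0, 0}} (T : Set (HInd L)) (M : Type u)
    [L.Structure M] (hJ : JCP.{u} T) (h : BigMonster T M) : HasSOP1 T M ↔ HasSOP2 T M :=
  full_from Pool.Agent.K1H28.PLG.t_EXN Pool.Agent.K1H16.PLG.t_BAS T M hJ h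

end Pool.Agent.K1H49.PL
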