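import Pool.Agent.K1H49.PL.Stm

/-!
# Project PL: positive formulas
-/

namespace Pool.Agent.K1H49.PL

open FirstOrder

universe u

/-- positive formulas of the signature `L` with free variables in `α` -/
inductive PF (L : FirstOrder.Language.{0, 0}) : Type → Type 1
  | eq {α : Type} (t s : L.Term α) : PF L α
  | rel {α : Type} {n : ℕ} (R : L.Relations n) (ts : Fin n → L.Term α) : PF L α
  | top {α : Type} : PF L α
  | bot {α : Type} : PF L α
  | and {α : Type} (φ ψ : PF L α) : PF L α
  | or {α : Type} (φ ψ : PF L α) : PF L α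
  | ex {α : Type} (φ : PF L (Option α)) : PF L α

/-- truth in a structure -/
def PF.Realize {L : FirstOrder.Language.{0, 0}} {M : Type u} [L.Structure M] :
    {α : Type} → PF L α → (α → M) → Prop
  | _, .eq t s, v => t.realize v = s.realize v
  | _, .rel R ts, v => FirstOrder.Language.Structure.RelMap R (fun i => (ts i).realize v)
  | _, .top, _ => True
  | _, .bot, _ => False
  | _, .and φ ψ, v => φ.Realize v ∧ ψ.Realize v
  | _, .or φ ψ, v => φ.Realize v ∨ ψ.Realize v
  | _, .ex φ, v => ∃ a : M, φ.Realize (fun o => o.elim a v)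

/-- saturation: every finitely satisfiable set of positive formulas in countably many variables
is satisfied -/
def PSat (L : FirstOrder.Language.{0, 0}) (M : Type u) [L.Structure M] : Prop :=
  ∀ (α : Type) [Countable α] (Γ : Set (PF L α)),
    (∀ Δ : Finset (PF L α), (∀ φ ∈ Δ, φ ∈ Γ) → ∃ v : α → M, ∀ φ ∈ Δ, φ.Realize v) →
      ∃ v : α → M, ∀ φ ∈ Γ, φ.Realize v

/-- the positive formulas of a saturated structure form a `Sys` -/
def S_PFS : Prop := ∀ (L : FirstOrder.Language.{0, 0}) (M : Type u) [L.Structure M], PSat L M →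
  ∃ Y : Sys M, ∀ {α : Type} (S : Set (α → M)), Y.D S ↔ ∃ φ : PF L α, S = {v | φ.Realize v}

end Pool.Agent.K1H49.PL
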