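import Pool.Agent.K1H49.PL.Def

/-!
# Project PL, general case: the modelling property of binary trees. Interface.
-/

namespace Pool.Agent.K1H49.PL

universe u

variable {M : Type u}

/-- saturation over small parameter sets -/
def SatP (Y : Sys M) : Prop := ∀ (X α : Type) (x : X → M) (Γ : Set (Set (X ⊕ α → M))),
  (∀ S ∈ Γ, Y.D S) →
  (∀ Δ : Finset (Set (X ⊕ α → M)), (∀ S ∈ Δ, S ∈ Γ) → ∃ v : α → M, ∀ S ∈ Δ, Sum.elim x v ∈ S) →
  ∃ v : α → M, ∀ S ∈ Γ, Sum.elim x v ∈ S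

/-- few definable sets -/
def SmallD (Y : Sys M) : Prop := ∀ α : Type, Small.{0} {S : Set (α → M) // Y.D S}

/-- complements of definable sets are unions of definable sets (all small sets of variables) -/
def ECg (Y : Sys M) : Prop := ∀ {α : Type} (S : Set (α → M)), Y.D S → ∀ v, v ∉ S →
  ∃ S', Y.D S' ∧ v ∈ S' ∧ ∀ u, u ∈ S → u ∉ S'

/-! ### index trees -/

/-- the order of the binary tree -/
def ndl (d : Bool) (π π' : Nd) : Prop := (π ++ [d]) <+: π'

/-- copies of the binary tree -/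
def Cpy {I : Type} (lt : Bool → I → I → Prop) (E : Nd → I) : Prop :=
  ∀ (π π' : Nd) (d : Bool), (π ++ [d]) <+: π' → lt d (E π) (E π')

/-- long binary trees; `lt d a b`: `b` is in the cone of `a` in direction `d` -/
structure BT {I : Type} (lt : Bool → I → I → Prop) : Prop where
  trans : ∀ {d d' : Bool} {a b c : I}, lt d a b → lt d' b c → lt d a c
  uniq : ∀ {d d' : Bool} {a b : I}, lt d a b → lt d' a b → d = d'
  lin : ∀ {d d' : Bool} {a b c : I}, lt d a c → lt d' b c →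
    a = b ∨ (∃ e, lt e a b) ∨ ∃ e, lt e b a
  wf : WellFounded fun a b : I => ∃ d, lt d a b
  fe : ∀ P : Finset I, ∃ g : I → Nd, ∀ a ∈ P, ∀ b ∈ P, ∀ d, lt d a b → (g a ++ [d]) <+: g b
  cp : ∀ (a : I) (d : Bool), ∃ E : Nd → I, Cpy lt E ∧ ∀ π, lt d a (E π)

/-- patterns -/
def Pt {I : Type} (lt : Bool → I → I → Prop) (n : ℕ) (E : LN n → I) : Prop :=
  ∀ (η η' : LN n) (d : Bool), (η.1 ++ [d]) <+: η'.1 → lt d (E η) (E η')

/-- the root of `LN n` -/
def rt (n : ℕ) : LN n := ⟨[], Nat.zero_le n⟩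

/-- every colouring of a suitable long tree has a monochromatic copy of the binary tree -/
def S_IDX : Prop := ∀ C : Type, ∃ (I : Type) (lt : Bool → I → I → Prop), BT lt ∧
  ∀ f : I → C, ∃ E, Cpy lt E ∧ ∃ c, ∀ π, f (E π) = c

/-- nodes of the tree of binary sequences of length `< Λ` -/
abbrev TI (Λ : Type) [LinearOrder Λ] : Type :=
  {p : Λ × (Λ → Bool) // ∀ b, p.1 ≤ b → p.2 b = false}

/-- its order -/
def tlt (Λ : Type) [LinearOrder Λ] (d : Bool) (p q : TI Λ) : Prop :=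
  p.1.1 < q.1.1 ∧ (∀ c, c < p.1.1 → q.1.2 c = p.1.2 c) ∧ q.1.2 p.1.1 = d

def S_BTI : Prop := ∀ (Λ : Type) [LinearOrder Λ] [WellFoundedLT Λ] [NoMaxOrder Λ], BT (tlt Λ)

def S_COL : Prop := ∀ (C Λ : Type) [LinearOrder Λ] [WellFoundedLT Λ] [Nonempty Λ] [NoMaxOrder Λ],
  (∀ g : C → Λ, ∃ b, ∀ c, g c < b) → ∀ f : TI Λ → C, ∃ E, Cpy (tlt Λ) E ∧ ∃ c, ∀ π, f (E π) = c

def S_LAM : Prop := ∀ C : Type, ∃ (Λ : Type) (_ : LinearOrder Λ), WellFoundedLT Λ ∧ Nonempty Λ ∧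
  NoMaxOrder Λ ∧ ∀ g : C → Λ, ∃ b, ∀ c, g c < b

/-! ### families of trees -/

/-- the homogeneous condition `S` of the family `t` of trees over the parameters `x` -/
def HK {X K ι : Type} (x : X → M) (t : K → Nd → ι → M) (n : ℕ)
    (S : Set (X ⊕ (K × LN n × ι) → M)) : Prop :=
  ∀ E : K → LN n → Nd, (∀ k, Pt ndl n (E k)) →
    Sum.elim x (fun p => t p.1 (E p.1 p.2.1) p.2.2) ∈ S

/-- the tuple of the patterns `E k` of height `dg k` -/
def tpl {X K ι : Type} {dg : K → ℕ} (x : X → M) (t : K → Nd → ι → M)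
    (E : ∀ k, LN (dg k) → Nd) : X ⊕ ((Σ k, LN (dg k)) × ι) → M :=
  Sum.elim x (fun p => t p.1.1 (E p.1.1 p.1.2) p.2)

/-- product homogeneity for patterns of height `dg k` of the tree number `k` -/
def PH (Y : Sys M) (ι K : Type) (dg : K → ℕ) : Prop :=
  ∀ (X : Type) (x : X → M) (t : K → Nd → ι → M), ∃ t' : K → Nd → ι → M,
    (∀ (n : ℕ) (S : Set (X ⊕ (K × LN n × ι) → M)), Y.D S → HK x t n S → HK x t' n S) ∧
    ∀ S, Y.D S → ∀ E E' : ∀ k, LN (dg k) → Nd, (∀ k, Pt ndl _ (E k)) → (∀ k, Pt ndl _ (E' k)) →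
      tpl x t' E ∈ S → tpl x t' E' ∈ S

/-- degrees on `Option K` -/
def dgo {K : Type} (a : ℕ) (dg : K → ℕ) : Option K → ℕ
  | none => a
  | some k => dg k

/-- homogeneous condition of the long tree `w` and the family `s` -/
def HX {X K ι I : Type} (lt : Bool → I → I → Prop) (x : X → M) (w : I → ι → M)
    (s : K → Nd → ι → M) (n : ℕ) (S : Set (X ⊕ (Option K × LN n × ι) → M)) : Prop :=
  ∀ (E0 : LN n → I) (E : K → LN n → Nd), Pt lt n E0 → (∀ k, Pt ndl n (E k)) →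
    Sum.elim x (fun p => p.1.elim (w (E0 p.2.1) p.2.2) (fun k => s k (E k p.2.1) p.2.2)) ∈ S

/-- the tuple of a pattern `E0` of height `a` of the long tree and of patterns of the others -/
def tpx {X K ι I : Type} {a : ℕ} {dg : K → ℕ} (x : X → M) (w : I → ι → M)
    (s : K → Nd → ι → M) (E0 : LN a → I) (E : ∀ k, LN (dg k) → Nd) :
    X ⊕ ((Σ k, LN (dgo a dg k)) × ι) → M :=
  Sum.elim x (fun p => match p with
    | (⟨none, η⟩, i) => w (E0 η) i
    | (⟨some k, η⟩, i) => s k (E k η) i)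

/-- complete types -/
def Tps (Y : Sys M) {V : Type} (θ : Set (Set (V → M))) : Prop :=
  ∃ v : V → M, θ = {S | Y.D S ∧ v ∈ S}

/-- types at positions of the long tree -/
abbrev FF (M : Type u) (X ι K I : Type) (a : ℕ) (dg : K → ℕ) : Type u :=
  Set (I × Set (Set (X ⊕ ((Σ k, LN (dgo a dg k)) × ι) → M)))

/-- `w`, `s` realize the homogeneous conditions of `t` and the types `F` -/
def Rz (Y : Sys M) {X ι K I : Type} (lt : Bool → I → I → Prop) (x : X → M)
    (t : Option K → Nd → ι → M) {a : ℕ} {dg : K → ℕ} (F : FF M X ι K I a dg)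
    (w : I → ι → M) (s : K → Nd → ι → M) : Prop :=
  (∀ n S, Y.D S → HK x t n S → HX lt x w s n S) ∧
  ∀ q ∈ F, ∀ (E0 : LN a → I) (E : ∀ k, LN (dg k) → Nd), Pt lt a E0 → (∀ k, Pt ndl _ (E k)) →
    E0 (rt a) = q.1 → ∀ S ∈ q.2, tpx x w s E0 E ∈ S

/-- good assignments of types -/
structure GoodF (Y : Sys M) {X ι K I : Type} (lt : Bool → I → I → Prop) (x : X → M)
    (t : Option K → Nd → ι → M) {a : ℕ} {dg : K → ℕ} (F : FF M X ι K I a dg) : Prop where
  fn : ∀ q ∈ F, ∀ q' ∈ F, q.1 = q'.1 → q = q'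
  tp : ∀ q ∈ F, Tps Y q.2
  dn : ∀ q ∈ F, ∀ ρ d, lt d ρ q.1 → ∃ θ, (ρ, θ) ∈ F
  cons : ∃ w s, Rz Y lt x t F w s

/-! ### pieces -/

/-- lengthening -/
def S_LEN : Prop := ∀ {M : Type u} (Y : Sys M), SatP Y → ∀ {X ι K I : Type} [Finite ι] [Finite K]
  (lt : Bool → I → I → Prop), BT lt → ∀ (x : X → M) (t : Option K → Nd → ι → M),
  ∃ (w : I → ι → M) (s : K → Nd → ι → M), ∀ n S, Y.D S → HK x t n S → HX lt x w s n S

/-- unions of chains -/
def S_CHN : Prop := ∀ {M : Type u} (Y : Sys M), SatP Y → ∀ {X ι K I : Type} [Finite ι] [Finite K]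
  (lt : Bool → I → I → Prop) (x : X → M) (t : Option K → Nd → ι → M) {a : ℕ} {dg : K → ℕ}
  (C : Set (FF M X ι K I a dg)), IsChain (· ⊆ ·) C → C.Nonempty →
  (∀ F ∈ C, GoodF Y lt x t F) → GoodF Y lt x t (⋃₀ C)

/-- extension by one position -/
def S_EXN : Prop := ∀ {M : Type u} (Y : Sys M), SatP Y → ECg Y →
  ∀ {X ι K I : Type} [Finite ι] [Finite K]
  (lt : Bool → I → I → Prop), BT lt → ∀ (x : X → M) (t : Option K → Nd → ι → M) {m : ℕ}
  {dg : K → ℕ}, PH Y ι (Option (Option K)) (dgo m (dgo m dg)) →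
  ∀ (F : FF M X ι K I (m + 1) dg), GoodF Y lt x t F → ∀ π : I, (∀ θ, (π, θ) ∉ F) →
  (∀ ρ d, lt d ρ π → ∃ θ, (ρ, θ) ∈ F) → ∃ θ, GoodF Y lt x t (insert (π, θ) F)

/-- induction step -/
def S_STP : Prop := ∀ {M : Type u} (Y : Sys M), SatP Y → ECg Y → SmallD Y →
  ∀ {ι K : Type} [Finite ι] [Finite K] {m : ℕ} {dg : K → ℕ},
  PH Y ι (Option (Option K)) (dgo m (dgo m dg)) → PH Y ι (Option K) (dgo (m + 1) dg)

/-- degree zero -/
def S_BAS : Prop := ∀ {M : Type u} (Y : Sys M), SatP Y → ECg Y → SmallD Y →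
  ∀ {ι K : Type} [Finite ι] [Finite K] {dg : K → ℕ},
  PH Y ι K dg → PH Y ι (Option K) (dgo 0 dg)

/-- the modelling property -/
def S_MPG : Prop := ∀ {M : Type u} (Y : Sys M), ECg Y →
  (∀ (ι : Type) [Finite ι] (m : ℕ), PH Y ι (Option Empty) (dgo m (fun k : Empty => k.elim))) →
  MP Y

/-- saturation for positive formulas with parameters -/
def PSatP (L : FirstOrder.Language.{0, 0}) (M : Type u) [L.Structure M] : Prop :=
  ∀ (X α : Type) (x : X → M) (Γ : Set (PF L (X ⊕ α))),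
    (∀ Δ : Finset (PF L (X ⊕ α)), (∀ φ ∈ Δ, φ ∈ Γ) →
      ∃ v : α → M, ∀ φ ∈ Δ, φ.Realize (Sum.elim x v)) →
      ∃ v : α → M, ∀ φ ∈ Γ, φ.Realize (Sum.elim x v)

/-- few positive formulas -/
def S_SML : Prop := ∀ (L : FirstOrder.Language.{0, 0}) (M : Type u) [L.Structure M] (α : Type),
  Small.{0} {S : Set (α → M) // ∃ φ : PF L α, S = {v | φ.Realize v}}

/-- translation of saturation -/
def S_PFG : Prop := ∀ (L : FirstOrder.Language.{0, 0}) (M : Type u) [L.Structure M],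
  PSatP L M → PSat L M ∧ ∀ (Y : Sys M), (∀ {α : Type} (S : Set (α → M)), Y.D S ↔
    ∃ φ : PF L α, S = {v | φ.Realize v}) → SatP Y ∧ SmallD Y

/-- a formula has finitely many free variables: negations for small sets of variables -/
def S_ECG : Prop := ∀ {L : FirstOrder.Language.{0, 0}} {T : Set (HInd L)} {M : Type u}
  [L.Structure M] (Y : Sys M), (∀ {α : Type} (S : Set (α → M)), Y.D S ↔
    ∃ φ : PF L α, S = {v | φ.Realize v}) → Monster T M → ECg Y

end Pool.Agent.K1H49.PL
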