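import Mathlib

/-!
# Project PL (MP_0ff3ec_lc): SOP1 versus SOP2 in positive logic. Interface.
-/

namespace Pool.Agent.K1H49.PL

universe u

/-! ### trees -/

/-- nodes of the binary tree -/
abbrev Nd := List Bool

/-- maps of the tree which preserve the left and the right cones -/
def Emb (e : Nd → Nd) : Prop := ∀ (π : Nd) (d : Bool), (e π ++ [d]) <+: e (π ++ [d])

/-- incomparable -/
def Inc (μ ν : Nd) : Prop := ¬ μ <+: ν ∧ ¬ ν <+: μ

/-- nodes of length at most `m` -/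
abbrev LN (m : ℕ) := {η : Nd // η.length ≤ m}

/-! ### definable relations -/

/-- A compact family of relations on `M`, closed under finite intersections and unions, change of
variables and projections (the positive formulas of a saturated structure). -/
structure Sys (M : Type u) where
  D : ∀ {α : Type}, Set (α → M) → Prop
  univ : ∀ {α : Type}, D (Set.univ : Set (α → M))
  inter : ∀ {α : Type} {S S' : Set (α → M)}, D S → D S' → D (S ∩ S')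
  union : ∀ {α : Type} {S S' : Set (α → M)}, D S → D S' → D (S ∪ S')
  pull : ∀ {α β : Type} (f : α → β) {S : Set (α → M)}, D S → D {v : β → M | (v ∘ f) ∈ S}
  proj : ∀ {α β : Type} [Finite β] {S : Set (α ⊕ β → M)}, D S →
    D {v : α → M | ∃ w : β → M, Sum.elim v w ∈ S}
  eq : ∀ {α : Type} (i j : α), D {v : α → M | v i = v j}
  sat : ∀ {α : Type} [Countable α] (Γ : Set (Set (α → M))), (∀ S ∈ Γ, D S) →
    (∀ Δ : Finset (Set (α → M)), (∀ S ∈ Δ, S ∈ Γ) → ∃ v, ∀ S ∈ Δ, v ∈ S) → ∃ v, ∀ S ∈ Γ, v ∈ S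

variable {M : Type u}

def Sys.D2 (Y : Sys M) {A B : Type} (R : (A → M) → (B → M) → Prop) : Prop :=
  Y.D {v : A ⊕ B → M | R (v ∘ Sum.inl) (v ∘ Sum.inr)}

/-- weak SOP2: trees of every finite height, inconsistency without a uniform witness -/
def Wk2 {A B : Type} (R : (A → M) → (B → M) → Prop) : Prop := ∀ n : ℕ, ∃ b : Nd → B → M,
  (∀ σ : Nd, σ.length ≤ n → ∃ w, ∀ τ, τ <+: σ → R w (b τ)) ∧
  ∀ μ ν : Nd, μ.length ≤ n → ν.length ≤ n → Inc μ ν → ¬ ∃ w, R w (b μ) ∧ R w (b ν)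

def NW2 (Y : Sys M) : Prop := ∀ (A B : Type) [Finite A] [Finite B]
  (R : (A → M) → (B → M) → Prop), Y.D2 R → ¬ Wk2 R

/-- SOP2 with the uniform witness `P` -/
def SOP2 {A B : Type} (R : (A → M) → (B → M) → Prop) (P : (B → M) → (B → M) → Prop) : Prop :=
  (∀ b b', P b b' → ¬ ∃ w, R w b ∧ R w b') ∧ ∃ b : Nd → B → M,
    (∀ σ : Nd, ∃ w, ∀ τ, τ <+: σ → R w (b τ)) ∧ ∀ μ ν : Nd, Inc μ ν → P (b μ) (b ν)

def NSOP2 (Y : Sys M) : Prop := ∀ (A B : Type) [Finite A] [Finite B]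
  (R : (A → M) → (B → M) → Prop) (P : (B → M) → (B → M) → Prop), Y.D2 R → Y.D2 P → ¬ SOP2 R P

/-! ### SOP1 systems -/

section sop1

variable {X V Z : Type} (β : (X → M) → (V → M) → Prop) (α : (Z → M) → (V → M) → Prop)
  (γ : (X → M) → (Z → M) → Prop)

/-- SOP1 tree -/
def TC (y : Nd → V → M) (z : Nd → Z → M) : Prop :=
  (∀ μ η : Nd, (μ ++ [false]) <+: η → α (z η) (y μ)) ∧
    ∀ σ : Nd, ∃ x, (∀ μ : Nd, (μ ++ [true]) <+: σ → β x (y μ)) ∧
      ∀ η : Nd, η <+: σ → γ x (z η)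

def S1 : Prop := ∃ y z, TC β α γ y z

/-- the same up to height `n` -/
def S1fin (n : ℕ) : Prop := ∃ (y : Nd → V → M) (z : Nd → Z → M),
  (∀ μ η : Nd, η.length ≤ n → (μ ++ [false]) <+: η → α (z η) (y μ)) ∧
    ∀ σ : Nd, σ.length ≤ n → ∃ x, (∀ μ : Nd, (μ ++ [true]) <+: σ → β x (y μ)) ∧
      ∀ η : Nd, η <+: σ → γ x (z η)

/-- doubling -/
def bp : (X ⊕ (X ⊕ V) → M) → (V → M) → Prop := fun x v =>
  β (x ∘ Sum.inl) v ∧ β (x ∘ Sum.inr ∘ Sum.inl) v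

def ap : (Z ⊕ (Z ⊕ V) → M) → (V → M) → Prop := fun z v =>
  α (z ∘ Sum.inl) v ∧ α (z ∘ Sum.inr ∘ Sum.inl) v

def gp : (X ⊕ (X ⊕ V) → M) → (Z ⊕ (Z ⊕ V) → M) → Prop := fun x z =>
  γ (x ∘ Sum.inl) (z ∘ Sum.inl) ∧ γ (x ∘ Sum.inl) (z ∘ Sum.inr ∘ Sum.inl) ∧
  γ (x ∘ Sum.inr ∘ Sum.inl) (z ∘ Sum.inl) ∧
  β (x ∘ Sum.inr ∘ Sum.inl) (x ∘ Sum.inr ∘ Sum.inr) ∧
  α (z ∘ Sum.inr ∘ Sum.inl) (z ∘ Sum.inr ∘ Sum.inr) ∧
  (x ∘ Sum.inr ∘ Sum.inr) = (z ∘ Sum.inr ∘ Sum.inr)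

/-- the full structure on `w` points -/
def MW (w : ℕ) : Prop := ∃ (a : Fin w → V → M) (x : (Fin w → Bool) → X → M)
  (z : (Fin w → Bool) → Z → M), (∀ A i, A i = true → β (x A) (a i)) ∧
    (∀ B i, B i = true → α (z B) (a i)) ∧
      ∀ A B, (∀ i, ¬ (A i = true ∧ B i = true)) → γ (x A) (z B)

end sop1

/-! ### shapes -/

/-- finite binary trees whose nodes carry lists of labels -/
inductive Sh (Λ : Type) : Type
  | nil : Sh Λ
  | node (ls : List Λ) (l r : Sh Λ) : Sh Λ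

/-- positions of the labels (root of the shape at `π`) -/
def Sh.pos {Λ : Type} : Sh Λ → Nd → List (Nd × Λ)
  | .nil, _ => []
  | .node ls l r, π => ls.map (fun a => (π, a)) ++ (l.pos (π ++ [false]) ++ r.pos (π ++ [true]))

/-- `Sub F F'`: `F` is obtained from `F'` by dropping nodes and labels -/
inductive Sub {Λ : Type} : Sh Λ → Sh Λ → Prop
  | nil (F : Sh Λ) : Sub .nil F
  | node {ls ls' : List Λ} {l l' r r' : Sh Λ} : ls ⊆ ls' → Sub l l' → Sub r r' →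
      Sub (.node ls l r) (.node ls' l' r')
  | left {F l r : Sh Λ} (ls : List Λ) : Sub F l → Sub F (.node ls l r)
  | right {F l r : Sh Λ} (ls : List Λ) : Sub F r → Sub F (.node ls l r)

/-- shapes with a hole -/
inductive Ctx (Λ : Type) : Type
  | hole : Ctx Λ
  | L (ls : List Λ) (C : Ctx Λ) (r : Sh Λ) : Ctx Λ
  | R (ls : List Λ) (l : Sh Λ) (C : Ctx Λ) : Ctx Λ

def Ctx.plug {Λ : Type} : Ctx Λ → Sh Λ → Sh Λ
  | .hole, F => F
  | .L ls C r, F => .node ls (C.plug F) r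
  | .R ls l C, F => .node ls l (C.plug F)

/-- the position of the hole -/
def Ctx.hp {Λ : Type} : Ctx Λ → Nd
  | .hole => []
  | .L _ C _ => false :: C.hp
  | .R _ _ C => true :: C.hp

/-- closed families of shapes -/
structure Cl {Λ : Type} (G : Sh Λ → Prop) : Prop where
  sub : ∀ {F F' : Sh Λ}, Sub F F' → G F' → G F
  spl : ∀ C K : Ctx Λ, (∀ k : ℕ, G (C.plug ((K.plug)^[k] .nil))) →
    G (C.plug (.node [] (K.plug .nil) (K.plug .nil)))

/-- role systems: the tuple `w` (variables `A`), and its relation to a node with a given label -/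
structure RS (Y : Sys M) (Λ A ι : Type) where
  r0 : (A → M) → Prop
  r : Λ → (A → M) → (ι → M) → Prop
  d0 : Y.D {w | r0 w}
  d : ∀ a, Y.D2 (r a)

def Good {Y : Sys M} {Λ A ι : Type} (R : RS Y Λ A ι) (c : Nd → ι → M) (F : Sh Λ)
    (e : Nd → Nd) : Prop :=
  ∃ w, R.r0 w ∧ ∀ p ∈ F.pos [], R.r p.2 w (c (e p.1))

def AllG {Y : Sys M} {Λ A ι : Type} (R : RS Y Λ A ι) (c : Nd → ι → M) (F : Sh Λ) : Prop :=
  ∀ e, Emb e → Good R c F e

def Rich (Y : Sys M) {ι : Type} (c : Nd → ι → M) : Prop :=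
  ∀ (Λ A : Type) [Finite A] (R : RS Y Λ A ι), Cl (AllG R c)

/-- every SOP1 system has a rich tree -/
def HT (Y : Sys M) : Prop := ∀ (X V Z : Type) [Finite X] [Finite V] [Finite Z]
  (β : (X → M) → (V → M) → Prop) (α : (Z → M) → (V → M) → Prop)
  (γ : (X → M) → (Z → M) → Prop), Y.D2 β → Y.D2 α → Y.D2 γ → S1 β α γ →
  ∃ c : Nd → V ⊕ Z → M, TC β α γ (fun η => c η ∘ Sum.inl) (fun η => c η ∘ Sum.inr) ∧ Rich Y c

/-! ### the tuples of the induction -/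

/-- variables of the tuple `(z'_η, x_σ)`, `η` of length `≤ n`, `σ` of length `n` -/
def An (X Z : Type) : ℕ → Type
  | 0 => Z ⊕ X
  | n + 1 => Z ⊕ (An X Z n ⊕ An X Z n)

section an

variable {X V Z : Type}

def zr : ∀ {n : ℕ}, (An X Z n → M) → Z → M
  | 0, w => fun i => w (Sum.inl i)
  | _ + 1, w => fun i => w (Sum.inl i)

def x0 (w : An X Z 0 → M) : X → M := fun i => w (Sum.inr i)

def w0 {n : ℕ} (w : An X Z (n + 1) → M) : An X Z n → M := fun i => w (Sum.inr (Sum.inl i))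

def w1 {n : ℕ} (w : An X Z (n + 1) → M) : An X Z n → M := fun i => w (Sum.inr (Sum.inr i))

def allz (p : (Z → M) → Prop) : ∀ n : ℕ, (An X Z n → M) → Prop
  | 0, w => p (zr w)
  | n + 1, w => p (zr w) ∧ allz p n (w0 w) ∧ allz p n (w1 w)

def allx (p : (X → M) → Prop) : ∀ n : ℕ, (An X Z n → M) → Prop
  | 0, w => p (x0 w)
  | n + 1, w => allx p n (w0 w) ∧ allx p n (w1 w)

/-- the labels -/
inductive Lab : Type
  | Q | P | R | S
  | T (μ : Nd)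

variable (β : (X → M) → (V → M) → Prop) (α : (Z → M) → (V → M) → Prop)
  (γ : (X → M) → (Z → M) → Prop)

def rho0 : ∀ n : ℕ, (An X Z n → M) → Prop
  | 0, w => γ (x0 w) (zr w)
  | n + 1, w => rho0 n (w0 w) ∧ rho0 n (w1 w) ∧ allx (fun x => γ x (zr w)) n (w0 w) ∧
      allx (fun x => γ x (zr w)) n (w1 w)

def rho : ∀ (n : ℕ) (_ : Lab) (_ : An X Z n → M) (_ : V ⊕ Z → M), Prop
  | n, .Q, w, v => allz (fun z => α z (v ∘ Sum.inl)) n w
  | n, .P, w, v => allx (fun x => β x (v ∘ Sum.inl)) n w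
  | n, .R, w, v => allx (fun x => γ x (v ∘ Sum.inr)) n w
  | _, .S, _, _ => True
  | 0, .T μ, w, v => μ = [] → γ (x0 w) (v ∘ Sum.inr)
  | n + 1, .T [], w, v => allz (fun z => α z (v ∘ Sum.inl)) n (w0 w) ∧
      allx (fun x => γ x (v ∘ Sum.inr)) n (w0 w) ∧
      allx (fun x => β x (v ∘ Sum.inl)) n (w1 w) ∧ allx (fun x => γ x (v ∘ Sum.inr)) n (w1 w)
  | n + 1, .T (false :: μ), w, v => rho n (.T μ) (w0 w) v
  | n + 1, .T (true :: μ), w, v => rho n (.T μ) (w1 w) v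

end an

/-- the complete tree of height `n` with labels `T μ` -/
def Tc : ℕ → Nd → Sh Lab
  | 0, μ => .node [.T μ] .nil .nil
  | n + 1, μ => .node [.T μ] (Tc n (μ ++ [false])) (Tc n (μ ++ [true]))

/-- kinds of labelled nodes -/
inductive Kd : Type
  | q | qr | p | pr | rl | rr

def Kd.labs : Kd → List Lab
  | .q => [.Q] | .qr => [.Q, .R] | .p => [.P] | .pr => [.P, .R] | .rl => [.R] | .rr => [.R]

/-- the direction of the only child -/
def Kd.dir : Kd → Bool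
  | .q => false | .qr => false | .p => true | .pr => true | .rl => false | .rr => true

/-- abstract shapes -/
inductive AS : Type
  | nil : AS
  | lab (k : Kd) (F : AS) : AS
  | split (F G : AS) : AS
  | tt : AS
  | s : AS

def AS.ex (n : ℕ) : AS → Sh Lab
  | .nil => .nil
  | .lab k F => if k.dir then .node k.labs .nil (F.ex n) else .node k.labs (F.ex n) .nil
  | .split F G => .node [] (F.ex n) (G.ex n)
  | .tt => Tc n []
  | .s => .node [.S] .nil .nil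

/-- no node of kind `q`, `qr`, and no `s` -/
def AS.noQ : AS → Prop
  | .nil => True
  | .lab k F => k ≠ .q ∧ k ≠ .qr ∧ F.noQ
  | .split F G => F.noQ ∧ G.noQ
  | .tt => True
  | .s => False

def AS.noS : AS → Prop
  | .nil => True
  | .lab _ F => F.noS
  | .split F G => F.noS ∧ G.noS
  | .tt => True
  | .s => False

/-- exactly one `s`, above all `q` and `qr` -/
def AS.OkS : AS → Prop
  | .nil => False
  | .lab _ F => F.OkS
  | .split F G => (F.OkS ∧ G.noQ) ∨ (F.noQ ∧ G.OkS)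
  | .tt => False
  | .s => True

def AS.tr0 : AS → AS
  | .nil => .nil
  | .lab k F => .lab k F.tr0
  | .split F G => .split F.tr0 G.tr0
  | .tt => .lab .qr .tt
  | .s => .lab .rl .nil

def AS.tr1 : AS → AS
  | .nil => .nil
  | .lab k F => .lab k F.tr1
  | .split F G => .split F.tr1 G.tr1
  | .tt => .lab .pr .tt
  | .s => .lab .rl .nil

/-- replace `tt` by a node with label `R` -/
def AS.rT : AS → AS
  | .nil => .nil
  | .lab k F => .lab k F.rT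
  | .split F G => .split F.rT G.rT
  | .tt => .lab .rl .nil
  | .s => .s

/-- chains -/
def AS.chain : AS → Prop
  | .nil => True
  | .lab _ F => F.chain
  | _ => False

/-! ### the pieces: combinatorics -/

/-- ultrafilters -/
def S_ULT : Prop := ∃ U : Bool → Ultrafilter Nd,
  (∀ d, ∀ᶠ π in (U d : Filter Nd), ∃ τ, π = d :: τ) ∧
  ∀ (d d' : Bool) (A : Set Nd), A ∈ U d ↔ ∀ᶠ π in (U d : Filter Nd), {τ | π ++ τ ∈ A} ∈ U d'

/-- Ramsey theorem for the binary tree -/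
def S_RAM : Prop := ∀ (m n : ℕ) (χ : (LN m → Nd) → Prop), ∃ e, Emb e ∧
  ((∀ e', Emb e' → (∀ η : Nd, η.length ≤ m → (e' η).length ≤ n) →
    χ (fun η => e (e' η.1))) ∨
  (∀ e', Emb e' → (∀ η : Nd, η.length ≤ m → (e' η).length ≤ n) →
    ¬ χ (fun η => e (e' η.1))))

/-- spacing -/
def spc (N : ℕ) : Nd → Nd
  | [] => (List.replicate N [false, true]).flatten
  | b :: τ => (List.replicate N [false, true]).flatten ++ b :: spc N τ

/-- realizations of a subshape extend -/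
def S_EXT : Prop := ∀ {Λ : Type} {F F' : Sh Λ}, Sub F F' → ∃ N : ℕ, Emb (spc N) ∧
  ∀ e, Emb e → ∃ e', Emb e' ∧ ∀ p ∈ F.pos [], ∃ π : Nd, (π, p.2) ∈ F'.pos [] ∧
    e' π = spc N (e p.1)

/-- the tree of copies of `K` above `C`: root of the copy at `ν` -/
def jt (h0 h : Nd) : Nd → Nd
  | ν => h0 ++ (ν.map fun i => h ++ [i]).flatten

/-- paths of the tree of copies -/
def S_JT1 : Prop := ∀ {Λ : Type} (C K : Ctx Λ) (σ : Nd), ∃ e, Emb e ∧
  ∀ q : Nd × Λ, ((∃ p ∈ (C.plug .nil).pos [], q = p) ∨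
    ∃ τ, τ <+: σ ∧ ∃ p ∈ (K.plug .nil).pos [], q = (jt C.hp K.hp τ ++ p.1, p.2)) →
  ∃ π, (π, q.2) ∈ (C.plug ((K.plug)^[σ.length + 1] .nil)).pos [] ∧ e π = q.1

/-- incomparable pairs of the tree of copies -/
def S_JT2 : Prop := ∀ {Λ : Type} (C K : Ctx Λ) (ρ μ ν : Nd), ∃ e, Emb e ∧
  ∀ p ∈ (C.plug (.node [] (K.plug .nil) (K.plug .nil))).pos [],
    (p ∈ (C.plug .nil).pos [] ∧ e p.1 = p.1) ∨
    (∃ p' ∈ (K.plug .nil).pos [], p'.2 = p.2 ∧
      (e p.1 = jt C.hp K.hp (ρ ++ false :: μ) ++ p'.1 ∨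
        e p.1 = jt C.hp K.hp (ρ ++ true :: ν) ++ p'.1))

/-- the combinatorial induction -/
def S_COMB : Prop := ∀ G : ℕ → Sh Lab → Prop, (∀ n, Cl (G n)) →
  (∀ F : AS, F.chain → G 0 (F.ex 0)) → (∀ F : AS, G 0 (F.rT.ex 0) → G 0 (F.ex 0)) →
  (∀ (n : ℕ) (E : AS), E.OkS → G n (E.tr0.ex n) → G n (E.tr1.ex n) → G (n + 1) (E.ex (n + 1))) →
  ∀ (n : ℕ) (F : AS), F.noS → G n (F.ex n)

/-! ### the pieces: trees in `M` -/

/-- homogeneous properties of a tree -/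
def Hm {ι : Type} (c : Nd → ι → M) (m : ℕ) (S : Set ((LN m × ι) → M)) : Prop :=
  ∀ e, Emb e → (fun p : LN m × ι => c (e p.1.1) p.2) ∈ S

def MaxT (Y : Sys M) {ι : Type} (c : Nd → ι → M) : Prop := ∀ c' : Nd → ι → M,
  (∀ m S, Y.D S → Hm c m S → Hm c' m S) → ∀ m S, Y.D S → Hm c' m S → Hm c m S

def S_MAX : Prop := ∀ {M : Type u} (Y : Sys M) {ι : Type} [Finite ι] (c : Nd → ι → M),
  ∃ c', (∀ m S, Y.D S → Hm c m S → Hm c' m S) ∧ MaxT Y c'

/-- strongly indiscernible trees -/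
def Ind (Y : Sys M) {ι : Type} (c : Nd → ι → M) : Prop := ∀ m S, Y.D S → ∀ e e', Emb e →
  Emb e' → (fun p : LN m × ι => c (e p.1.1) p.2) ∈ S → (fun p : LN m × ι => c (e' p.1.1) p.2) ∈ S

/-- negations -/
def EC (Y : Sys M) : Prop := ∀ {α : Type} [Finite α] (S : Set (α → M)), Y.D S → ∀ v, v ∉ S →
  ∃ S', Y.D S' ∧ v ∈ S' ∧ ∀ u, u ∈ S → u ∉ S'

def S_SUBB : Prop := ∀ {M : Type u} (Y : Sys M) {ι : Type} [Finite ι] (c : Nd → ι → M),
  MaxT Y c → ∀ (Λ A : Type) [Finite A] (R : RS Y Λ A ι) (F F' : Sh Λ), Sub F F' →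
  AllG R c F' → AllG R c F

def S_SPLB : Prop := ∀ {M : Type u} (Y : Sys M) {ι : Type} [Finite ι] (c : Nd → ι → M),
  NW2 Y → MaxT Y c → ∀ (Λ A : Type) [Finite A] (R : RS Y Λ A ι) (C K : Ctx Λ),
  (∀ k : ℕ, AllG R c (C.plug ((K.plug)^[k] .nil))) →
    AllG R c (C.plug (.node [] (K.plug .nil) (K.plug .nil)))

def S_RICHB : Prop := ∀ {M : Type u} (Y : Sys M), NW2 Y → HT Y

def S_RICHA : Prop := ∀ {M : Type u} (Y : Sys M) {ι : Type} [Finite ι] (c : Nd → ι → M),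
  NSOP2 Y → EC Y → Ind Y c → Rich Y c

def S_BASE : Prop := ∀ {M : Type u} {X V Z : Type} (β : (X → M) → (V → M) → Prop)
  (α : (Z → M) → (V → M) → Prop) (γ : (X → M) → (Z → M) → Prop) (c : Nd → V ⊕ Z → M),
  TC β α γ (fun η => c η ∘ Sum.inl) (fun η => c η ∘ Sum.inr) → ∀ F : AS, F.chain → ∀ e, Emb e →
  ∃ w, rho0 γ 0 w ∧ ∀ p ∈ (F.ex 0).pos [], rho β α γ 0 p.2 w (c (e p.1))

def S_T0 : Prop := ∀ {M : Type u} {X V Z : Type} (β : (X → M) → (V → M) → Prop)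
  (α : (Z → M) → (V → M) → Prop) (γ : (X → M) → (Z → M) → Prop) (c : Nd → V ⊕ Z → M) (F : AS)
  (e : Nd → Nd) (w : An X Z 0 → M), (∀ p ∈ (F.rT.ex 0).pos [], rho β α γ 0 p.2 w (c (e p.1))) →
  ∀ p ∈ (F.ex 0).pos [], rho β α γ 0 p.2 w (c (e p.1))

def S_STEP : Prop := ∀ {M : Type u} {X V Z : Type} (β : (X → M) → (V → M) → Prop)
  (α : (Z → M) → (V → M) → Prop) (γ : (X → M) → (Z → M) → Prop) (c : Nd → V ⊕ Z → M),
  TC β α γ (fun η => c η ∘ Sum.inl) (fun η => c η ∘ Sum.inr) → ∀ (n : ℕ) (E : AS), E.OkS →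
  ∀ e, Emb e →
  (∃ w, rho0 γ n w ∧ ∀ p ∈ (E.tr0.ex n).pos [], rho β α γ n p.2 w (c (e p.1))) →
  (∃ w, rho0 γ n w ∧ ∀ p ∈ (E.tr1.ex n).pos [], rho β α γ n p.2 w (c (e p.1))) →
  ∃ w, rho0 γ (n + 1) w ∧ ∀ p ∈ (E.ex (n + 1)).pos [], rho β α γ (n + 1) p.2 w (c (e p.1))

/-- definability of the roles -/
def S_DEF : Prop := ∀ {M : Type u} (Y : Sys M) {X V Z : Type} (β : (X → M) → (V → M) → Prop)
  (α : (Z → M) → (V → M) → Prop) (γ : (X → M) → (Z → M) → Prop), Y.D2 β → Y.D2 α → Y.D2 γ →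
  ∀ n : ℕ, Y.D {w : An X Z n → M | rho0 γ n w} ∧ ∀ a : Lab, Y.D2 (rho β α γ n a)


/-- doubling, finite heights -/
def S_ONE : Prop := ∀ {M : Type u} {X V Z : Type} (β : (X → M) → (V → M) → Prop)
  (α : (Z → M) → (V → M) → Prop) (γ : (X → M) → (Z → M) → Prop) (c : Nd → V ⊕ Z → M),
  TC β α γ (fun η => c η ∘ Sum.inl) (fun η => c η ∘ Sum.inr) →
  (∀ (n : ℕ) (F : AS), F.noS → ∀ e, Emb e →
    ∃ w, rho0 γ n w ∧ ∀ p ∈ (F.ex n).pos [], rho β α γ n p.2 w (c (e p.1))) →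
  ∀ n, S1fin (bp β) (ap α) (gp β α γ) n

/-- modelling property -/
def MP (Y : Sys M) : Prop := ∀ {ι : Type} [Finite ι] (c : Nd → ι → M),
  ∃ c', (∀ m S, Y.D S → Hm c m S → Hm c' m S) ∧ Ind Y c'

/-- compactness for SOP1 trees -/
def S_CPT : Prop := ∀ {M : Type u} (Y : Sys M) {X V Z : Type} [Finite X] [Finite V] [Finite Z]
  (β : (X → M) → (V → M) → Prop) (α : (Z → M) → (V → M) → Prop)
  (γ : (X → M) → (Z → M) → Prop), Y.D2 β → Y.D2 α → Y.D2 γ → (∀ n, S1fin β α γ n) → S1 β α γ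

/-- iteration -/
def S_ITER : Prop := ∀ {M : Type u} (Y : Sys M),
  (∀ (X V Z : Type) [Finite X] [Finite V] [Finite Z] (β : (X → M) → (V → M) → Prop)
    (α : (Z → M) → (V → M) → Prop) (γ : (X → M) → (Z → M) → Prop), Y.D2 β → Y.D2 α → Y.D2 γ →
    S1 β α γ → S1 (bp β) (ap α) (gp β α γ)) →
  ∀ (X V Z : Type) [Finite X] [Finite V] [Finite Z] (β : (X → M) → (V → M) → Prop)
    (α : (Z → M) → (V → M) → Prop) (γ : (X → M) → (Z → M) → Prop), Y.D2 β → Y.D2 α → Y.D2 γ →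
    S1 β α γ → ∀ w, MW β α γ w

/-- the SOP2 tree -/
def S_TREE : Prop := ∀ {M : Type u} (Y : Sys M) (X V Z : Type) [Finite X] [Finite V] [Finite Z]
  (β : (X → M) → (V → M) → Prop) (α : (Z → M) → (V → M) → Prop)
  (γ : (X → M) → (Z → M) → Prop), Y.D2 β → Y.D2 α → Y.D2 γ →
  (∀ x v z, ¬ (β x v ∧ α z v ∧ γ x z)) → (∀ w, MW β α γ w) →
  SOP2 (fun (x : X → M) (b : V ⊕ Z → M) => β x (b ∘ Sum.inl) ∧ γ x (b ∘ Sum.inr))
    (fun b b' => α (b' ∘ Sum.inr) (b ∘ Sum.inl))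

end Pool.Agent.K1H49.PL
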