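import Pool.Agent.K1H49.PL.Stm

/-!
# Project PL: transfer of SOP1 trees (the proof is by helper38, piece RICHB)
-/

namespace Pool.Agent.K1H49.PL.Tct

open Pool.Agent.K1H49.PL

universe u

theorem emb_mono {e : Nd → Nd} (he : Emb e) {σ τ : Nd} (h : σ <+: τ) : e σ <+: e τ := by
  obtain ⟨t, rfl⟩ := h
  induction t using List.reverseRecOn with
  | nil => simp
  | append_singleton t a ih =>
    refine ih.trans ?_
    have h1 := he (σ ++ t) a
    rw [List.append_assoc] at h1
    exact (List.prefix_append _ _).trans h1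

theorem D_list {M : Type u} (Y : Sys M) {κ : Type} {a : Type} (l : List κ)
    (S : κ → Set (a → M)) (h : ∀ i ∈ l, Y.D (S i)) : Y.D {v | ∀ i ∈ l, v ∈ S i} := by
  induction l with
  | nil =>
    have : {v : a → M | ∀ i ∈ ([] : List κ), v ∈ S i} = Set.univ := by
      ext v; simp
    rw [this]
    exact Y.univ
  | cons i l ih =>
    have : {v : a → M | ∀ j ∈ (i :: l), v ∈ S j} = S i ∩ {v | ∀ j ∈ l, v ∈ S j} := by
      ext v; simp
    rw [this]
    exact Y.inter (h i (by simp)) (ih fun j hj => h j (by simp [hj]))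

theorem D_imp {M : Type u} (Y : Sys M) {a : Type} (P : Prop)
    (S : Set (a → M)) (h : Y.D S) : Y.D {v | P → v ∈ S} := by
  by_cases hP : P
  · have : {v : a → M | P → v ∈ S} = S := by
      ext v; simp [hP]
    rw [this]
    exact h
  · have : {v : a → M | P → v ∈ S} = Set.univ := by
      ext v; simp [hP]
    rw [this]
    exact Y.univ

def nd (m : ℕ) (η : Nd) : LN m := ⟨η.take m, by simp⟩

theorem nd_val {m : ℕ} {η : Nd} (h : η.length ≤ m) : (nd m η).1 = η :=
  List.take_of_length_le h

theorem D_pair {M : Type u} (Y : Sys M) {A B C : Type} (R : (A → M) → (B → M) → Prop)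
    (hR : Y.D2 R) (f : A → C) (g : B → C) :
    Y.D {v : C → M | R (fun i => v (f i)) (fun i => v (g i))} := by
  have := Y.pull (Sum.elim f g) hR
  exact this


theorem tct {M : Type u} (Y : Sys M) {X V Z : Type} [Finite X] [Finite V] [Finite Z]
    (β : (X → M) → (V → M) → Prop) (α : (Z → M) → (V → M) → Prop)
    (γ : (X → M) → (Z → M) → Prop) (hβ : Y.D2 β) (hα : Y.D2 α) (hγ : Y.D2 γ)
    (y : Nd → V → M) (z : Nd → Z → M) (hT : TC β α γ y z) (c' : Nd → V ⊕ Z → M)
    (hc : ∀ m S, Y.D S → Hm (fun η => Sum.elim (y η) (z η)) m S → Hm c' m S) :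
    TC β α γ (fun η => c' η ∘ Sum.inl) (fun η => c' η ∘ Sum.inr) := by
  obtain ⟨hT1, hT2⟩ := hT
  constructor
  · intro μ η hμη
    have hμ : μ.length ≤ η.length := by
      have := hμη.length_le
      simp at this
      omega
    have hD : Y.D {v : LN η.length × (V ⊕ Z) → M |
        α (fun i => v (nd η.length η, Sum.inr i)) (fun i => v (nd η.length μ, Sum.inl i))} :=
      D_pair Y α hα (fun i => (nd η.length η, Sum.inr i)) (fun i => (nd η.length μ, Sum.inl i))
    have hH := hc η.length _ hD (by
      intro e he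
      show α (z (e (nd η.length η).1)) (y (e (nd η.length μ).1))
      rw [nd_val le_rfl, nd_val hμ]
      exact hT1 _ _ ((he μ false).trans (emb_mono he hμη)))
    have := hH id (fun π d => List.prefix_rfl)
    simp only [id_eq, Set.mem_ofPred_eq] at this
    rw [nd_val le_rfl, nd_val hμ] at this
    exact this
  · intro σ
    have hlen : ∀ {η : Nd}, η <+: σ → η.length ≤ σ.length := fun h => h.length_le
    have hlen' : ∀ {μ : Nd}, (μ ++ [true]) <+: σ → μ.length ≤ σ.length := by
      intro μ h
      have := h.length_le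
      simp at this
      omega
    have hD : Y.D {v : LN σ.length × (V ⊕ Z) → M | ∃ x : X → M,
        Sum.elim v x ∈ {u : (LN σ.length × (V ⊕ Z)) ⊕ X → M |
          ∀ μ ∈ σ.inits, u ∈ {u : (LN σ.length × (V ⊕ Z)) ⊕ X → M | (μ ++ [true]) <+: σ →
            u ∈ {u : (LN σ.length × (V ⊕ Z)) ⊕ X → M |
              β (fun i => u (Sum.inr i)) (fun i => u (Sum.inl (nd σ.length μ, Sum.inl i)))}}} ∩
        {u : (LN σ.length × (V ⊕ Z)) ⊕ X → M | ∀ η ∈ σ.inits,
            u ∈ {u : (LN σ.length × (V ⊕ Z)) ⊕ X → M |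
              γ (fun i => u (Sum.inr i)) (fun i => u (Sum.inl (nd σ.length η, Sum.inr i)))}}} := by
      apply Y.proj
      apply Y.inter
      · apply D_list
        intro μ _
        apply D_imp
        exact D_pair Y β hβ (fun i => Sum.inr i) (fun i => Sum.inl (nd σ.length μ, Sum.inl i))
      · apply D_list
        intro η _
        exact D_pair Y γ hγ (fun i => Sum.inr i) (fun i => Sum.inl (nd σ.length η, Sum.inr i))
    have hH := hc σ.length _ hD (by
      intro e he
      obtain ⟨x, hx1, hx2⟩ := hT2 (e σ)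
      refine ⟨x, ?_, ?_⟩
      · intro μ _ hμ
        show β x (y (e (nd σ.length μ).1))
        rw [nd_val (hlen' hμ)]
        exact hx1 _ ((he μ true).trans (emb_mono he hμ))
      · intro η hη
        rw [List.mem_inits] at hη
        show γ x (z (e (nd σ.length η).1))
        rw [nd_val (hlen hη)]
        exact hx2 _ (emb_mono he hη))
    obtain ⟨x, hx1, hx2⟩ := hH id (fun π d => List.prefix_rfl)
    refine ⟨x, ?_, ?_⟩
    · intro μ hμ
      have := hx1 μ (by rw [List.mem_inits]; exact (List.prefix_append _ _).trans hμ) hμ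
      simp only [id_eq, Set.mem_ofPred_eq, Sum.elim_inr, Sum.elim_inl] at this
      rw [nd_val (hlen' hμ)] at this
      exact this
    · intro η hη
      have := hx2 η (by rw [List.mem_inits]; exact hη)
      simp only [id_eq, Set.mem_ofPred_eq, Sum.elim_inr, Sum.elim_inl] at this
      rw [nd_val (hlen hη)] at this
      exact this

end Pool.Agent.K1H49.PL.Tct
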